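import Pool.Agent.H21.EGZI.Pow
import Pool.Agent.H29.EGZ.S.Main
import Pool.Agent.H29.EGZ.S.All

/-!
# The Erdős-Ginzburg-Ziv constant of `C_n^5` for `n = 9, 27, 81, ...`

The proposed formula `s(C_n^r) = (g(C_3^r) - 1)(n - 1) + 1` fails for `r = 5` and every power
`n = 3^k`, `k ≥ 2`: here `g(C_3^5) = 46` and `s(C_n^5) ≤ 45 (n - 1) + 1 - n/9`.
-/

set_option autoImplicit false

namespace Pool.Agent.Results.MP_c25d06_nt.PowersOfThree

open Pool.Agent.H21.EGZI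

/-- `g(C_3^5) = 46`, and for all `k ≥ 2` the constant `s(C_{3^k}^5)` is at most
`(46 - 1)(3^k - 1) + 1 - 3^(k-2)`, which is smaller than the value `(g(C_3^5) - 1)(3^k - 1) + 1` of the
formula. -/
theorem result : IsHarborth (C 3 5) 46 ∧ ∀ k : ℕ, 2 ≤ k →
    ∃ s, IsEGZ (C (3 ^ k) 5) s ∧ s + 3 ^ (k - 2) ≤ (46 - 1) * (3 ^ k - 1) + 1 :=
  main_of (fun _ hD h45 => Pool.Agent.H29.EGZ.cap45_unique hD h45) Pool.Agent.H29.EGZ.no_good_lift

end Pool.Agent.Results.MP_c25d06_nt.PowersOfThree
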